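import Pool.Agent.X31.S9
import Pool.Agent.X31.S13
import Pool.Agent.X31.M3

/-!
# The primes `p_n + 2 c` for all the constants `c` with `2 c` near
# the values of bilinear functions at pairs of integers with missing digits

`C₁`, `C₂` are sets of integers with `mᵢ` digits in base `bᵢ` whose digit at `bᵢ ^ j` is in `𝒟ᵢ j`, where the sets
`𝒟ᵢ j` of allowed digits are arbitrary with at least TWO elements (for instance: the integers with the decimal digits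
`0` and `1` only; the product of the two sets can be as thin as `N ^ ε`), `θ` is a real number and `g`, `h` are
ARBITRARY real functions. The values considered are `θ x y + g(x) + h(y)`; for `θ = 1`, `g = h = 0` these are the
products of two integers with missing digits.
For almost all elements `n` of an ARBITRARY dense subset `M` of `C₁ × C₂`, ALL constants `c > 0` with `2 c` within `log ^ D N` of the
value at `n` satisfy the conjectured asymptotic formula for the number of the indices `i ≥ 1` with `p_i ≡ a (mod q)` for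
which `p_i + 2 c ≤ x` is prime, uniformly in `x ≤ X`, all moduli `q ≤ (log X) ^ B` and all classes `a` with
`(a, q) = (a + 2 c, q) = 1`. Here `N (log X) ^ (C + 6) ≤ X ≤ N (log X) ^ W`.

The minimal real additive energy of these values is from `Pool.Agent.X31.M1` - `M3` (in this run);
the theorem for families of small energy is in the starting files (`MP_92ef0c_nt.ThinFamilies`).

Definition used: `Pool.Agent.H560R3.GB.C₂`, the twin prime constant `∏_{p > 2} (1 - 1 / (p - 1) ^ 2)`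
(the infimum of the partial products).
-/

set_option autoImplicit false

namespace Pool.Agent.Results.MP_3aaefc_nt.BilinearConstants

open Finset Pool.Agent.H560R3.GB

/-- the integers `0 ≤ n < b ^ m` whose digit at `b ^ j` in base `b` is in `𝒟 j`, for all `j < m` -/
def Digits (b : ℕ) (𝒟 : ℕ → Finset ℕ) (m : ℕ) : Finset ℕ :=
  (range (b ^ m)).filter (fun n => ∀ j < m, n / b ^ j % b ∈ 𝒟 j)

/-- the bilinear function `θ x y + g(x) + h(y)` -/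
def bil (θ : ℝ) (g h : ℕ → ℝ) (n : ℕ × ℕ) : ℝ := θ * ((n.1 : ℝ) * n.2) + g n.1 + h n.2

/-- `M` is a set of pairs in `Digits b₁ 𝒟₁ m₁ × Digits b₂ 𝒟₂ m₂` with at least `1 / log ^ D N` of all these pairs, where
all sets `𝒟ᵢ j` of allowed digits have at least two elements and `m₁ ≤ l m₂`, `m₂ ≤ l m₁`; the number `θ` is at most
`log ^ D N` and at least `N / (b₁ ^ m₁ b₂ ^ m₂ log ^ D N)` in absolute value; `g` and `h` are ARBITRARY functions with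
`|bil θ g h| ≤ N` on `M`. -/
def Fam (b₁ b₂ l D N m₁ m₂ : ℕ) (𝒟₁ 𝒟₂ : ℕ → Finset ℕ) (θ : ℝ) (g h : ℕ → ℝ) (M : Finset (ℕ × ℕ)) : Prop :=
  (∀ j, 𝒟₁ j ⊆ range b₁ ∧ 2 ≤ (𝒟₁ j).card) ∧ (∀ j, 𝒟₂ j ⊆ range b₂ ∧ 2 ≤ (𝒟₂ j).card) ∧
  m₁ ≤ l * m₂ ∧ m₂ ≤ l * m₁ ∧
  |θ| ≤ Real.log N ^ D ∧ (N : ℝ) / Real.log N ^ D ≤ |θ| * ((b₁ : ℝ) ^ m₁ * (b₂ : ℝ) ^ m₂) ∧
  M ⊆ Digits b₁ 𝒟₁ m₁ ×ˢ Digits b₂ 𝒟₂ m₂ ∧
  ((Digits b₁ 𝒟₁ m₁).card * (Digits b₂ 𝒟₂ m₂).card : ℝ) / Real.log N ^ D ≤ M.card ∧ ∀ n ∈ M, |bil θ g h n| ≤ N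

/-- the `i`-th prime `p_i`, `i ≥ 1` -/
noncomputable def pr (i : ℕ) : ℕ := Nat.nth Nat.Prime (i - 1)

/-- the number of the indices `i ≥ 1` with `p_i ≡ a (mod q)` for which `p_i + 2 P(i)` is a prime number `≤ x`, where `P`
is the constant polynomial `s` -/
noncomputable def count (s : ℕ) (x : ℝ) (a q : ℕ) : ℕ :=
  {i : ℕ | 1 ≤ i ∧ (pr i + 2 * s).Prime ∧ (pr i : ℝ) + 2 * s ≤ x ∧ pr i ≡ a [MOD q]}.ncard

/-- The conjectured main term: `2 C₂ ∏_{p ∣ s, p > 2} (p - 1) / (p - 2)` times the integral of `1 / log² t` from `2`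
to `x`, divided by the number of the classes `α` modulo `q` with `(α, q) = (α + 2 s, q) = 1`. -/
noncomputable def main (s : ℕ) (x : ℝ) (q : ℕ) : ℝ :=
  2 / (((range q).filter (fun α => Nat.Coprime α q ∧ Nat.Coprime (α + 2 * s) q)).card : ℝ) *
    (∏ p ∈ s.primeFactors.filter (fun p => 2 < p), ((p : ℝ) - 1) / ((p : ℝ) - 2)) * C₂ *
    ∫ t in (2 : ℝ)..x, 1 / Real.log t ^ 2

/-- The asymptotic formula for the constant `s`, with the error bound `X / (log X) ^ C`, for all `x ≤ X`, all moduli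
`q ≤ (log X) ^ B` and all admissible classes `a`. -/
def Holds (B C X s : ℕ) : Prop :=
  ∀ q a : ℕ, 1 ≤ q → (q : ℝ) ≤ Real.log X ^ B →
    Nat.Coprime a q → Nat.Coprime (a + 2 * s) q → ∀ x : ℝ, 2 ≤ x → x ≤ X →
    |(count s x a q : ℝ) - main s x q| ≤ X / Real.log X ^ C

lemma dat_of {b₁ b₂ l D N m₁ m₂ : ℕ} {𝒟₁ 𝒟₂ : ℕ → Finset ℕ} {θ : ℝ} {g h : ℕ → ℝ} {M : Finset (ℕ × ℕ)}
    (H : Fam b₁ b₂ l D N m₁ m₂ 𝒟₁ 𝒟₂ θ g h M) : Pool.Agent.X31.CT.Dat2 b₁ b₂ l D N m₁ m₂ 𝒟₁ 𝒟₂ θ g h M :=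
  ⟨H.1, H.2.1, H.2.2.1, H.2.2.2.1, H.2.2.2.2.1, H.2.2.2.2.2.1, H.2.2.2.2.2.2.1, H.2.2.2.2.2.2.2.1,
    H.2.2.2.2.2.2.2.2⟩

lemma main_eq (s : ℕ) (hs : 0 < s) (x : ℝ) (q : ℕ) :
    main s x q = Pool.Agent.Results.MP_92ef0c_nt.ThinFamilies.main (2 * s) x q := by
  have e : (2 * s).primeFactors.filter (fun p => 2 < p) = s.primeFactors.filter (fun p => 2 < p) := by
    ext p
    simp only [mem_filter, Nat.mem_primeFactors]
    constructor
    · rintro ⟨⟨h1, h2, _⟩, h3⟩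
      refine ⟨⟨h1, ?_, hs.ne'⟩, h3⟩
      rcases h1.dvd_mul.1 h2 with h | h
      · have := Nat.le_of_dvd (by norm_num) h
        omega
      · exact h
    · rintro ⟨⟨h1, h2, _⟩, h3⟩
      exact ⟨⟨h1, h2.mul_left 2, by omega⟩, h3⟩
  unfold main Pool.Agent.Results.MP_92ef0c_nt.ThinFamilies.main
  rw [e]

/-- Let `b₁, b₂ ≥ 2` and `l ≥ 1` be integers. Let `B`, `C`, `D`, `U`, `W` be natural numbers. For all sufficiently large `N`, all `X ≥ N` with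
`N (log X) ^ (C + 6) ≤ X ≤ N (log X) ^ W`, all numbers `m₁`, `m₂` of digits, ALL sets `𝒟ᵢ j` of allowed
digits, all `θ`, ALL functions `g`, `h` and all sets `M` of pairs with `Fam b₁ b₂ l D N m₁ m₂ 𝒟₁ 𝒟₂ θ g h M`:
for all but at most `#M / log ^ U N` elements `n` of `M`, ALL constants `s > 0` with `|2 s - bil θ g h n| ≤ log ^ D N`
satisfy `Holds B C X s`. -/
theorem result (b₁ b₂ l : ℕ) (hb₁ : 2 ≤ b₁) (hb₂ : 2 ≤ b₂) (hl : 1 ≤ l) (B C D U W : ℕ) :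
    ∃ N₀ : ℕ, ∀ N : ℕ, N₀ ≤ N → ∀ X : ℕ, N ≤ X → (N : ℝ) * Real.log X ^ (C + 6) ≤ X → (X : ℝ) ≤ N * Real.log X ^ W →
      ∀ (m₁ m₂ : ℕ) (𝒟₁ 𝒟₂ : ℕ → Finset ℕ) (θ : ℝ) (g h : ℕ → ℝ) (M : Finset (ℕ × ℕ)),
      Fam b₁ b₂ l D N m₁ m₂ 𝒟₁ 𝒟₂ θ g h M →
      ∃ E : Finset (ℕ × ℕ), (E.card : ℝ) ≤ M.card / Real.log N ^ U ∧ ∀ n ∈ M, n ∉ E →
        ∀ s : ℕ, 0 < s → |2 * (s : ℝ) - bil θ g h n| ≤ Real.log N ^ D → Holds B C X s := by
  classical
  obtain ⟨N₀, h0⟩ := (Pool.Agent.X31.Sch_bil hb₁ hb₂ l hl).singleK D U _ _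
    (fun h' _ => Pool.Agent.X31.famK_pairs h' 0 B C W)
  refine ⟨N₀ + 3, fun N hN X hX0 hX1 hX2 m₁ m₂ 𝒟₁ 𝒟₂ θ g h M hfam => ?_⟩
  obtain ⟨E, hE1, hE2⟩ := h0 N (by omega) X ⟨hX0, hX1, hX2⟩ M _ ⟨m₁, m₂, 𝒟₁, 𝒟₂, θ, g, h, dat_of hfam, fun _ => rfl⟩
  refine ⟨E, hE1, fun n hn hnE s hs0 hds => ?_⟩
  have h1 := hE2 n hn hnE ((2 * s : ℕ) : ℤ) (by push_cast; exact hds) (by exact_mod_cast (by omega : 0 < 2 * s))
  rw [Int.toNat_natCast] at h1
  intro q a hq1 hq2 ha had x hx2 hxX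
  have h2 := h1 (2 * s) q a le_rfl (by rw [pow_zero]; linarith) (by omega) (even_two_mul s) hq1 hq2 ha had x hx2 hxX
  rw [main_eq s hs0]
  have e : count s x a q = Pool.Agent.Results.MP_92ef0c_nt.ThinFamilies.pairs (2 * s) x a q := by
    have h3 := Pool.Agent.X31.index_count (2 * s) a q x
    unfold count pr Pool.Agent.Results.MP_92ef0c_nt.ThinFamilies.pairs
    push_cast at h3 ⊢
    rw [h3]
  rw [e]
  exact h2

end Pool.Agent.Results.MP_3aaefc_nt.BilinearConstants
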