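import Pool.Agent.X31.S9
import Pool.Agent.X31.S13
import Pool.Agent.X31.V2

/-!
# The primes `p_n + 2 c` for all the constants `c` with `2 c` near
# the values of `n ^ k₀ log n` plus lower terms at integers with missing digits

`f(t) = t ^ k₀ log t + ∑ u_x t ^ x`, where `k₀ ≥ 1` is an integer and the sum is an arbitrary finite real combination of
real powers of `t` with exponents at most `k₀` (for instance `t log t - t`), `C` is the set of the integers with `m` digits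
in base `b` whose digit at `b ^ j` is in `𝒟 j`, where the sets `𝒟 j` of allowed digits are arbitrary with at least TWO
elements (for instance: the integers with the decimal digits `0` and `1` only; such sets can be as thin as `N ^ ε`). The
values considered are `b₀ + θ f(n)`, `n ∈ C`.
For almost all elements `n` of an ARBITRARY dense subset `M` of `C`, ALL constants `c > 0` with `2 c` within `log ^ D N` of the
value at `n` satisfy the conjectured asymptotic formula for the number of the indices `i ≥ 1` with `p_i ≡ a (mod q)` for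
which `p_i + 2 c ≤ x` is prime, uniformly in `x ≤ X`, all moduli `q ≤ (log X) ^ B` and all classes `a` with
`(a, q) = (a + 2 c, q) = 1`. Here `N (log X) ^ (C + 6) ≤ X ≤ N (log X) ^ W`.

The minimal real additive energy of these values is from `Pool.Agent.X31.V1`, `V2` and `R1` - `R3` (in this run);
the theorem for families of small energy is in the starting files (`MP_92ef0c_nt.ThinFamilies`).

Definition used: `Pool.Agent.H560R3.GB.C₂`, the twin prime constant `∏_{p > 2} (1 - 1 / (p - 1) ^ 2)`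
(the infimum of the partial products).
-/

set_option autoImplicit false

namespace Pool.Agent.Results.MP_3aaefc_nt.LogPowerConstants

open Finset Pool.Agent.H560R3.GB

/-- the integers `0 ≤ n < b ^ m` whose digit at `b ^ j` in base `b` is in `𝒟 j`, for all `j < m` -/
def Digits (b : ℕ) (𝒟 : ℕ → Finset ℕ) (m : ℕ) : Finset ℕ :=
  (range (b ^ m)).filter (fun n => ∀ j < m, n / b ^ j % b ∈ 𝒟 j)

/-- the function `t ^ k₀ log t + ∑ u x * t ^ x` (over the exponents `x ∈ F`) -/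
noncomputable def f (k₀ : ℕ) (F : Finset ℝ) (u : ℝ → ℝ) (t : ℝ) : ℝ := t ^ k₀ * Real.log t + ∑ x ∈ F, u x * t ^ x

/-- `M` is a subset with at least `#(Digits b 𝒟 m) / log ^ D N` elements of the set `Digits b 𝒟 m`, where all sets `𝒟 j`
of allowed digits have at least two elements; the number `θ` is at most `log ^ D N` and at least
`N / (b ^ (k₀ m) log ^ D N)` in absolute value, and `|b₀ + θ f(n)| ≤ N` for all `n ∈ M`. -/
def Fam (b k₀ : ℕ) (F : Finset ℝ) (u : ℝ → ℝ) (D N m : ℕ) (𝒟 : ℕ → Finset ℕ) (θ b₀ : ℝ) (M : Finset ℕ) : Prop :=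
  (∀ j, 𝒟 j ⊆ range b ∧ 2 ≤ (𝒟 j).card) ∧
  |θ| ≤ Real.log N ^ D ∧ (N : ℝ) / Real.log N ^ D ≤ |θ| * ((b : ℝ) ^ m) ^ k₀ ∧
  M ⊆ Digits b 𝒟 m ∧ ((Digits b 𝒟 m).card : ℝ) / Real.log N ^ D ≤ M.card ∧ ∀ n ∈ M, |b₀ + θ * f k₀ F u n| ≤ N

/-- the `i`-th prime `p_i`, `i ≥ 1` -/
noncomputable def pr (i : ℕ) : ℕ := Nat.nth Nat.Prime (i - 1)

/-- the number of the indices `i ≥ 1` with `p_i ≡ a (mod q)` for which `p_i + 2 P(i)` is a prime number `≤ x`, where `P`
is the constant polynomial `s` -/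
noncomputable def count (s : ℕ) (x : ℝ) (a q : ℕ) : ℕ :=
  {i : ℕ | 1 ≤ i ∧ (pr i + 2 * s).Prime ∧ (pr i : ℝ) + 2 * s ≤ x ∧ pr i ≡ a [MOD q]}.ncard

/-- The conjectured main term: `2 C₂ ∏_{p ∣ s, p > 2} (p - 1) / (p - 2)` times the integral of `1 / log² t` from `2`
to `x`, divided by the number of the classes `α` modulo `q` with `(α, q) = (α + 2 s, q) = 1`. -/
noncomputable def main (s : ℕ) (x : ℝ) (q : ℕ) : ℝ :=
  2 / (((range q).filter (fun α => Nat.Coprime α q ∧ Nat.Coprime (α + 2 * s) q)).card : ℝ) *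
    (∏ p ∈ s.primeFactors.filter (fun p => 2 < p), ((p : ℝ) - 1) / ((p : ℝ) - 2)) * C₂ *
    ∫ t in (2 : ℝ)..x, 1 / Real.log t ^ 2

/-- The asymptotic formula for the constant `s`, with the error bound `X / (log X) ^ C`, for all `x ≤ X`, all moduli
`q ≤ (log X) ^ B` and all admissible classes `a`. -/
def Holds (B C X s : ℕ) : Prop :=
  ∀ q a : ℕ, 1 ≤ q → (q : ℝ) ≤ Real.log X ^ B →
    Nat.Coprime a q → Nat.Coprime (a + 2 * s) q → ∀ x : ℝ, 2 ≤ x → x ≤ X →
    |(count s x a q : ℝ) - main s x q| ≤ X / Real.log X ^ C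

lemma dat_of {b k₀ : ℕ} {F : Finset ℝ} {u : ℝ → ℝ} {D N m : ℕ} {𝒟 : ℕ → Finset ℕ} {θ b₀ : ℝ} {M : Finset ℕ}
    (h : Fam b k₀ F u D N m 𝒟 θ b₀ M) :
    Pool.Agent.X31.CT.Dat3 b k₀ D N m 𝒟 θ b₀ (Pool.Agent.X31.lgp k₀ F u) M :=
  ⟨h.1, h.2.1, by rw [Real.rpow_natCast]; exact h.2.2.1, h.2.2.2.1, h.2.2.2.2.1, h.2.2.2.2.2⟩

lemma main_eq (s : ℕ) (hs : 0 < s) (x : ℝ) (q : ℕ) :
    main s x q = Pool.Agent.Results.MP_92ef0c_nt.ThinFamilies.main (2 * s) x q := by
  have e : (2 * s).primeFactors.filter (fun p => 2 < p) = s.primeFactors.filter (fun p => 2 < p) := by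
    ext p
    simp only [mem_filter, Nat.mem_primeFactors]
    constructor
    · rintro ⟨⟨h1, h2, _⟩, h3⟩
      refine ⟨⟨h1, ?_, hs.ne'⟩, h3⟩
      rcases h1.dvd_mul.1 h2 with h | h
      · have := Nat.le_of_dvd (by norm_num) h
        omega
      · exact h
    · rintro ⟨⟨h1, h2, _⟩, h3⟩
      exact ⟨⟨h1, h2.mul_left 2, by omega⟩, h3⟩
  unfold main Pool.Agent.Results.MP_92ef0c_nt.ThinFamilies.main
  rw [e]

/-- Let `b ≥ 2`, `k₀ ≥ 1` be integers, let `F` be a finite set of real numbers `x ≤ k₀`, and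
`f(t) = t ^ k₀ log t + ∑_{x ∈ F} u x * t ^ x`. Let `B`, `C`, `D`, `U`, `W` be natural numbers. For all sufficiently large `N`, all `X ≥ N` with
`N (log X) ^ (C + 6) ≤ X ≤ N (log X) ^ W`, all numbers `m` of digits, ALL sets `𝒟 j` of allowed digits, all
real `θ`, `b₀` and all sets `M` with `Fam b k₀ F u D N m 𝒟 θ b₀ M`:
for all but at most `#M / log ^ U N` elements `n` of `M`, ALL constants `s > 0` with `|2 s - (b₀ + θ * f k₀ F u n)| ≤ log ^ D N`
satisfy `Holds B C X s`. -/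
theorem result (b k₀ : ℕ) (hb : 2 ≤ b) (hk₀ : 1 ≤ k₀) (F : Finset ℝ) (u : ℝ → ℝ)
    (hF : ∀ x ∈ F, x ≤ k₀) (B C D U W : ℕ) :
    ∃ N₀ : ℕ, ∀ N : ℕ, N₀ ≤ N → ∀ X : ℕ, N ≤ X → (N : ℝ) * Real.log X ^ (C + 6) ≤ X → (X : ℝ) ≤ N * Real.log X ^ W →
      ∀ (m : ℕ) (𝒟 : ℕ → Finset ℕ) (θ b₀ : ℝ) (M : Finset ℕ), Fam b k₀ F u D N m 𝒟 θ b₀ M →
      ∃ E : Finset ℕ, (E.card : ℝ) ≤ M.card / Real.log N ^ U ∧ ∀ n ∈ M, n ∉ E →
        ∀ s : ℕ, 0 < s → |2 * (s : ℝ) - (b₀ + θ * f k₀ F u n)| ≤ Real.log N ^ D → Holds B C X s := by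
  classical
  obtain ⟨N₀, h0⟩ := (Pool.Agent.X31.Sch_lg hb k₀ hk₀ F u hF).singleK D U _ _
    (fun h' _ => Pool.Agent.X31.famK_pairs h' 0 B C W)
  refine ⟨N₀ + 3, fun N hN X hX0 hX1 hX2 m 𝒟 θ b₀ M hfam => ?_⟩
  obtain ⟨E, hE1, hE2⟩ := h0 N (by omega) X ⟨hX0, hX1, hX2⟩ M _ ⟨m, 𝒟, θ, b₀, dat_of hfam, fun _ => rfl⟩
  refine ⟨E, hE1, fun n hn hnE s hs0 hds => ?_⟩
  have h1 := hE2 n hn hnE ((2 * s : ℕ) : ℤ) (by push_cast; exact hds) (by exact_mod_cast (by omega : 0 < 2 * s))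
  rw [Int.toNat_natCast] at h1
  intro q a hq1 hq2 ha had x hx2 hxX
  have h2 := h1 (2 * s) q a le_rfl (by rw [pow_zero]; linarith) (by omega) (even_two_mul s) hq1 hq2 ha had x hx2 hxX
  rw [main_eq s hs0]
  have e : count s x a q = Pool.Agent.Results.MP_92ef0c_nt.ThinFamilies.pairs (2 * s) x a q := by
    have h3 := Pool.Agent.X31.index_count (2 * s) a q x
    unfold count pr Pool.Agent.Results.MP_92ef0c_nt.ThinFamilies.pairs
    push_cast at h3 ⊢
    rw [h3]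
  rw [e]
  exact h2

end Pool.Agent.Results.MP_3aaefc_nt.LogPowerConstants
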